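import Pool.Agent.Q78.UW.ArW5

set_option autoImplicit false

/-!
# The law of the area of self-avoiding polygons in a finite region or in a random domain
-/

namespace Pool.Agent.Results.MP_f6626d_co.AreaLawInRegions

open MeasureTheory Filter Topology

/-- a closed nearest-neighbour loop on `ℤ²` with `m` steps that visits no vertex twice (rooted and
oriented, anywhere in the plane) -/
def IsPoly (m : ℕ) (f : ZMod m → ℤ × ℤ) : Prop :=
  Function.Injective f ∧ ∀ i : ZMod m, |(f (i + 1)).1 - (f i).1| + |(f (i + 1)).2 - (f i).2| = 1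

/-- the edge from `f k` to `f (k + 1)` is horizontal, over the column `[a, a + 1]`, and above the
height `b` -/
def Above (m : ℕ) (f : ZMod m → ℤ × ℤ) (a b : ℤ) (k : ZMod m) : Prop :=
  (((f k).1 = a ∧ (f (k + 1)).1 = a + 1) ∨ ((f k).1 = a + 1 ∧ (f (k + 1)).1 = a)) ∧ b < (f k).2

/-- the unit cell `[a, a + 1] × [b, b + 1]` is enclosed: the number of edges above it is odd -/
def Encl (m : ℕ) (f : ZMod m → ℤ × ℤ) (c : ℤ × ℤ) : Prop :=
  Odd (Nat.card {k : ZMod m // Above m f c.1 c.2 k})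

/-- the area of a polygon: the number of unit cells it encloses -/
noncomputable def area (m : ℕ) (f : ZMod m → ℤ × ℤ) : ℕ := Nat.card {c : ℤ × ℤ // Encl m f c}

/-- the number of self-avoiding polygons of perimeter `2n` on `ℤ²` up to translation: the number
of loops with `2n` steps rooted at the origin, divided by `4n` (the choices of the starting point
and of the orientation) -/
noncomputable def p (n : ℕ) : ℝ :=
  (Nat.card {f : ZMod (2 * n) → ℤ × ℤ // f 0 = 0 ∧ IsPoly (2 * n) f} : ℝ) / (4 * (n : ℝ))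

/-- the number of self-avoiding polygons of perimeter `2n` with all their vertices in `Λ` -/
noncomputable def N (Λ : Finset (ℤ × ℤ)) (n : ℕ) : ℝ :=
  (Nat.card {f : ZMod (2 * n) → ℤ × ℤ // IsPoly (2 * n) f ∧ ∀ i, f i ∈ Λ} : ℝ) / (4 * (n : ℝ))

/-- the sum of `g (area)` over them -/
noncomputable def G (Λ : Finset (ℤ × ℤ)) (g : ℝ → ℝ) (n : ℕ) : ℝ :=
  (∑ᶠ f : {f : ZMod (2 * n) → ℤ × ℤ // IsPoly (2 * n) f ∧ ∀ i, f i ∈ Λ},
    g (area (2 * n) f.1 : ℝ)) / (4 * (n : ℝ))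

/-- the mean area of the polygons of perimeter `2n` in `Λ` -/
noncomputable def A (Λ : Finset (ℤ × ℤ)) (n : ℕ) : ℝ := G Λ (fun x => x) n / N Λ n

/-- the size of the error for the region `Λ` -/
noncomputable def err (Λ : Finset (ℤ × ℤ)) (n : ℕ) : ℝ :=
  √((Real.log (Λ.card * p n / N Λ n) + Real.log n ^ 2) / n)

/-- test functions on `(0, ∞)`: bounded by one, and Lipschitz with constant `L` in `log x` -/
def Test (L : ℝ) (g : ℝ → ℝ) : Prop :=
  (∀ x, 0 < x → |g x| ≤ 1) ∧ ∀ x y, 0 < x → 0 < y → |g x - g y| ≤ L * |Real.log x - Real.log y|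

variable {Ω : Type} [MeasurableSpace Ω]

/-- the probability that the uniform polygon of perimeter `2n` rooted at the origin lies in an
independent random domain with law `ν` -/
noncomputable def Q (ν : Measure Ω) (D : Ω → ℤ × ℤ → Prop) (n : ℕ) : ℝ :=
  (∫ ω, (Nat.card {f : ZMod (2 * n) → ℤ × ℤ //
    (f 0 = 0 ∧ IsPoly (2 * n) f) ∧ ∀ i, D ω (f i)} : ℝ) ∂ν) / (4 * n * p n)

/-- the mean of `g (area)` over the event that this polygon lies in the domain; the function may be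
random -/
noncomputable def H (ν : Measure Ω) (D : Ω → ℤ × ℤ → Prop) (g : Ω → ℝ → ℝ) (n : ℕ) : ℝ :=
  (∫ ω, (∑ᶠ f : {f : ZMod (2 * n) → ℤ × ℤ // (f 0 = 0 ∧ IsPoly (2 * n) f) ∧ ∀ i, D ω (f i)},
    g ω (area (2 * n) f.1 : ℝ)) ∂ν) / (4 * n * p n)

/-- the conditional mean area given that the polygon lies in the domain -/
noncomputable def B (ν : Measure Ω) (D : Ω → ℤ × ℤ → Prop) (n : ℕ) : ℝ :=
  H ν D (fun _ x => x) n / Q ν D n

/-- random domains -/
def IsDomain (D : Ω → ℤ × ℤ → Prop) : Prop := ∀ x, MeasurableSet {ω | D ω x}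

/-- random test functions -/
def IsTest (L : ℝ) (g : Ω → ℝ → ℝ) : Prop := (∀ ω, Test L (g ω)) ∧ ∀ x, Measurable fun ω => g ω x

/-- the size of the error for a random domain -/
noncomputable def errD (ν : Measure Ω) (D : Ω → ℤ × ℤ → Prop) (n : ℕ) : ℝ :=
  √((Real.log (1 / Q ν D n) + Real.log n ^ 2) / n)

open TH966.AK Q78.UW Q78.UW.Po Pool.Agent.H924P

lemma p_eq (n : ℕ) : p n = H981.PP n := rfl

lemma area_eq (m : ℕ) (f : ZMod m → ℤ × ℤ) : area m f = Pool.Agent.H924P.area m f := rfl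

lemma Q_eq (ν : Measure Ω) (D : Ω → ℤ × ℤ → Prop) {n : ℕ} (hn : 1 ≤ n) : Q ν D n = Pl ν D n := by
  unfold Q Pl Fp Q78.UR.FF
  rw [p_eq]
  congr 1
  congr 1
  funext ω
  rw [← root_card' (2 * n) (2 * n - 1) (by omega) (D ω)]
  rfl

/-- a region as a random domain -/
lemma N_eq {Λ Λ' : Finset (ℤ × ℤ)} (h : Λ.Nonempty) (hsub : Λ' ⊆ Λ) {n : ℕ} (hn : 1 ≤ n) :
    N Λ' n = Λ.card * @Fp (ℤ × ℤ) ⊤ (uni Λ) (Dr Λ') n / (4 * n) := by
  unfold N Fp
  rw [← reg_card' (2 * n) (2 * n - 1) (by omega) h hsub]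
  rfl

lemma Pl_eq {Λ : Finset (ℤ × ℤ)} (h : Λ.Nonempty) {n : ℕ} (hn : 1 ≤ n) :
    @Pl (ℤ × ℤ) ⊤ (uni Λ) (Dr Λ) n = N Λ n / (Λ.card * p n) := by
  rw [N_eq h (Finset.Subset.refl _) hn, p_eq]
  unfold Pl
  have h0 : (0 : ℝ) < Λ.card := by exact_mod_cast h.card_pos
  have h1 : (0 : ℝ) < n := by exact_mod_cast hn
  rcases eq_or_ne (H981.PP n) 0 with h2 | h2
  · rw [h2]; simp
  · field_simp

lemma G_eq {Λ Λ' : Finset (ℤ × ℤ)} (h : Λ.Nonempty) (hsub : Λ' ⊆ Λ) (g : ℝ → ℝ) {n : ℕ}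
    (hn : 2 ≤ n) :
    G Λ' g n = Λ.card * @XX (ℤ × ℤ) ⊤ Q78.UR.Sq.A (uni Λ) (fun x => RD (Dr Λ' x))
      (ag fun _ => g) (2 * n - 1) / (4 * n) := by
  rw [← reg_sum' (2 * n) (2 * n - 1) (by omega) h hsub
    (fun m f => g (max 1 (Pool.Agent.H924P.area m f : ℝ))) (ag fun _ => g) (fun x k f => by
      unfold ag
      rw [arP_ofFn, ← area_shift (k + 1) x f])]
  unfold G
  congr 1
  refine finsum_congr fun f => ?_
  have h1 : 1 ≤ Pool.Agent.H924P.area (2 * n) f.1 := one_le_area (by omega) f.2.1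
  rw [max_eq_right (by exact_mod_cast h1), area_eq]

lemma H_eq (ν : Measure Ω) (D : Ω → ℤ × ℤ → Prop) (g : Ω → ℝ → ℝ) {n : ℕ} (hn : 2 ≤ n) :
    H ν D g n = XX Q78.UR.Sq.A ν (fun ω => RD (D ω)) (ag g) (2 * n - 1) /
      (4 * n * H981.PP n) := by
  unfold H XX
  rw [p_eq]
  congr 1
  congr 1
  funext ω
  rw [← root_sum (2 * n) (2 * n - 1) (by omega) (D ω)
    (fun m f => g ω (max 1 (Pool.Agent.H924P.area m f : ℝ))) (ag g ω) (fun k f => by
      unfold ag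
      rw [arP_ofFn])]
  have e : ∀ f : {f : ZMod (2 * n) → ℤ × ℤ // (f 0 = 0 ∧ IsPoly (2 * n) f) ∧ ∀ i, D ω (f i)},
      g ω (area (2 * n) f.1 : ℝ) = g ω (max 1 (Pool.Agent.H924P.area (2 * n) f.1 : ℝ)) := by
    intro f
    have h1 : 1 ≤ Pool.Agent.H924P.area (2 * n) f.1 := one_le_area (by omega) f.2.1.2
    rw [max_eq_right (by exact_mod_cast h1), area_eq]
  rw [finsum_congr e]
  rfl

lemma aq_one {Ω' : Type} : (fun _ : Ω' => aq 1) = ag fun (_ : Ω') x => x := by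
  funext ω w
  unfold aq ag
  rw [Real.rpow_one]

lemma A_eq {Λ : Finset (ℤ × ℤ)} (h : Λ.Nonempty) {n : ℕ} (hn : 2 ≤ n) :
    A Λ n = @mA (ℤ × ℤ) ⊤ (uni Λ) (Dr Λ) n := by
  unfold A mA
  have h0 : (0 : ℝ) < Λ.card := by exact_mod_cast h.card_pos
  have h1 : (0 : ℝ) < n := by exact_mod_cast (show 0 < n by omega)
  rw [G_eq h (Finset.Subset.refl _) _ hn, N_eq h (Finset.Subset.refl _) (by omega),
    div_div_div_cancel_right₀ (by positivity), mul_div_mul_left _ _ h0.ne', aq_one]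

lemma B_eq (ν : Measure Ω) (D : Ω → ℤ × ℤ → Prop) {n : ℕ} (hn : 2 ≤ n) :
    B ν D n = mA ν D n := by
  unfold B mA
  have hP0 := PP_pos hn
  have h1 : (0 : ℝ) < n := by exact_mod_cast (show 0 < n by omega)
  have hn3 : (0 : ℝ) < 4 * (n : ℝ) * H981.PP n := by positivity
  rw [H_eq ν D _ hn, Q_eq ν D (by omega)]
  unfold Pl
  rw [div_div_div_cancel_right₀ hn3.ne', aq_one]

/-- **Main result.** -/
theorem result : ∀ L : ℝ, 0 ≤ L → ∃ (C δ : ℝ) (n₀ : ℕ), 0 < C ∧ 0 < δ ∧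
    (∀ Λ : Finset (ℤ × ℤ), Λ.Nonempty → ∀ n, n₀ ≤ n → Real.exp (-δ * n) * (Λ.card * p n) ≤ N Λ n →
      0 < N Λ n ∧ 0 < A Λ n ∧ 0 < A Λ (n + 1) ∧ ∀ Λ' ⊆ Λ, ∀ g, Test L g →
        |G Λ' g (n + 1) / N Λ (n + 1) - G Λ' g n / N Λ n| ≤ C * err Λ n ∧
        |G Λ' (fun x => g (x / A Λ (n + 1))) (n + 1) / N Λ (n + 1) -
          G Λ' (fun x => g (x / A Λ n)) n / N Λ n| ≤ C * err Λ n) ∧
    (∀ (Ω : Type) [MeasurableSpace Ω] (ν : Measure Ω) [IsProbabilityMeasure ν]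
      (D : Ω → ℤ × ℤ → Prop), IsDomain D → ∀ n, n₀ ≤ n → Real.exp (-δ * n) ≤ Q ν D n →
      0 < B ν D n ∧ 0 < B ν D (n + 1) ∧
      ∀ D' : Ω → ℤ × ℤ → Prop, IsDomain D' → (∀ ω x, D' ω x → D ω x) → ∀ g, IsTest L g →
        |H ν D' g (n + 1) / Q ν D (n + 1) - H ν D' g n / Q ν D n| ≤ C * errD ν D n ∧
        |H ν D' (fun ω x => g ω (x / B ν D (n + 1))) (n + 1) / Q ν D (n + 1) -
          H ν D' (fun ω x => g ω (x / B ν D n)) n / Q ν D n| ≤ C * errD ν D n) := by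
  intro L hL
  obtain ⟨C, δ, N1, hC, hδ, hN1, h1⟩ := law_norm L hL
  refine ⟨C, δ, N1, hC, hδ, ?_, ?_⟩
  · intro Λ hne n hn hN
    have hn2 : 2 ≤ n := by omega
    have hn0 : (0 : ℝ) < n := by exact_mod_cast (show 0 < n by omega)
    have hcard : (0 : ℝ) < Λ.card := by exact_mod_cast hne.card_pos
    have hp0 : 0 < p n := PP_pos hn2
    let _ : MeasurableSpace (ℤ × ℤ) := ⊤
    have hprob : IsProbabilityMeasure (uni Λ) := uni_prob hne
    have hD : ∀ x, MeasurableSet {ω : ℤ × ℤ | Dr Λ ω x} := fun _ => trivial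
    have hpl : Pl (uni Λ) (Dr Λ) n = N Λ n / (Λ.card * p n) := Pl_eq hne (by omega)
    have hq : Real.exp (-δ * n) ≤ Pl (uni Λ) (Dr Λ) n := by
      rw [hpl, le_div_iff₀ (by positivity)]
      exact hN
    have herrN : err Λ n = √((Real.log (1 / Pl (uni Λ) (Dr Λ) n) + Real.log n ^ 2) / n) := by
      unfold err
      rw [hpl, one_div_div]
    obtain ⟨g1, g2, g3, g4⟩ := h1 (ℤ × ℤ) (uni Λ) (Dr Λ) hD n hn hq
    rw [← herrN] at g4
    have hn1 : (0 : ℝ) < 4 * ((n + 1 : ℕ) : ℝ) := by positivity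
    have hNn : 0 < N Λ n := by
      rw [N_eq hne (Finset.Subset.refl _) (by omega)]
      positivity
    rw [A_eq hne hn2, A_eq hne (show 2 ≤ n + 1 by omega)]
    refine ⟨hNn, g2, g3, fun Λ' hsub g hg => ?_⟩
    obtain ⟨g5, g6⟩ := g4 (Dr Λ') (fun _ => trivial) (fun ω x h => hsub h) (fun _ => g)
      (fun _ => hg) (fun _ => measurable_const)
    rw [N_eq hne (Finset.Subset.refl _) (by omega), N_eq hne (Finset.Subset.refl _) (by omega),
      G_eq hne hsub _ hn2, G_eq hne hsub _ (show 2 ≤ n + 1 by omega), G_eq hne hsub _ hn2,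
      G_eq hne hsub _ (show 2 ≤ n + 1 by omega),
      div_div_div_cancel_right₀ hn1.ne', div_div_div_cancel_right₀ (by positivity),
      div_div_div_cancel_right₀ hn1.ne', div_div_div_cancel_right₀ (by positivity),
      mul_div_mul_left _ _ hcard.ne', mul_div_mul_left _ _ hcard.ne',
      mul_div_mul_left _ _ hcard.ne', mul_div_mul_left _ _ hcard.ne']
    refine ⟨?_, g6⟩
    have g7 := g5 1 one_pos
    simp only [div_one] at g7
    exact g7
  · intro Ω _ ν _ D hD n hn hQ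
    have hn2 : 2 ≤ n := by omega
    have hn0 : (0 : ℝ) < n := by exact_mod_cast (show 0 < n by omega)
    have herrN : errD ν D n = √((Real.log (1 / Pl ν D n) + Real.log n ^ 2) / n) := by
      unfold errD
      rw [Q_eq ν D (by omega)]
    rw [Q_eq ν D (by omega)] at hQ
    obtain ⟨-, g2, g3, g4⟩ := h1 Ω ν D hD n hn hQ
    rw [← herrN] at g4
    have hP0 := PP_pos hn2
    have hP1 := PP_pos (show 2 ≤ n + 1 by omega)
    have hn1 : (0 : ℝ) < 4 * ((n + 1 : ℕ) : ℝ) * H981.PP (n + 1) := by positivity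
    have hn3 : (0 : ℝ) < 4 * (n : ℝ) * H981.PP n := by positivity
    rw [B_eq ν D hn2, B_eq ν D (show 2 ≤ n + 1 by omega)]
    refine ⟨g2, g3, fun D' hD' hsub g hg => ?_⟩
    obtain ⟨g5, g6⟩ := g4 D' hD' hsub g hg.1 hg.2
    rw [H_eq ν D' _ hn2, H_eq ν D' _ (show 2 ≤ n + 1 by omega), H_eq ν D' _ hn2,
      H_eq ν D' _ (show 2 ≤ n + 1 by omega), Q_eq ν D (by omega), Q_eq ν D (by omega)]
    unfold Pl
    rw [div_div_div_cancel_right₀ hn1.ne', div_div_div_cancel_right₀ hn3.ne',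
      div_div_div_cancel_right₀ hn1.ne', div_div_div_cancel_right₀ hn3.ne']
    refine ⟨?_, g6⟩
    have g7 := g5 1 one_pos
    simp only [div_one] at g7
    exact g7

end Pool.Agent.Results.MP_f6626d_co.AreaLawInRegions
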