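import Pool.Agent.Q294.Sq9
import Pool.Agent.Q294.Sq10

/-!
Area law of square-lattice self-avoiding polygons: the quadratic variation of the area laws over
dyadic blocks of perimeters is bounded; the limit law passes from sparse perimeters, or from the
partial sums over the perimeters, to all perimeters.
-/

open Filter Topology MeasureTheory

namespace Pool.Agent.Results.MP_f6626d_co.AreaLawVariation

/-- the number of `n`-step self-avoiding walks on `ℤ²` started at the origin -/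
noncomputable def c (n : ℕ) : ℕ :=
  Nat.card {f : Fin (n + 1) → ℤ × ℤ // f 0 = 0 ∧ Function.Injective f ∧
    ∀ i : Fin n, |(f i.succ).1 - (f i.castSucc).1| + |(f i.succ).2 - (f i.castSucc).2| = 1}

/-- a closed nearest-neighbour loop on `ℤ²` with `m` steps, rooted at the origin and oriented,
that visits no vertex twice -/
def IsLoop (m : ℕ) (f : ZMod m → ℤ × ℤ) : Prop :=
  f 0 = 0 ∧ Function.Injective f ∧
    ∀ i : ZMod m, |(f (i + 1)).1 - (f i).1| + |(f (i + 1)).2 - (f i).2| = 1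

/-- the number of self-avoiding polygons of perimeter `2n` up to translation: the number of rooted
oriented loops with `2n` steps, divided by `4n` -/
noncomputable def p (n : ℕ) : ℝ :=
  (Nat.card {f : ZMod (2 * n) → ℤ × ℤ // IsLoop (2 * n) f} : ℝ) / (4 * (n : ℝ))

/-- the edge from `f k` to `f (k+1)` is horizontal, joins the columns `x = a` and `x = a + 1`, and
has height larger than `b`: it lies above the unit cell `[a, a+1] × [b, b+1]` -/
def Above (m : ℕ) (f : ZMod m → ℤ × ℤ) (a b : ℤ) (k : ZMod m) : Prop :=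
  (((f k).1 = a ∧ (f (k + 1)).1 = a + 1) ∨ ((f k).1 = a + 1 ∧ (f (k + 1)).1 = a)) ∧ b < (f k).2

/-- the unit cell `[a, a+1] × [b, b+1]` is enclosed by the loop: the vertical ray from the cell
upwards crosses an odd number of edges -/
def Encl (m : ℕ) (f : ZMod m → ℤ × ℤ) (c : ℤ × ℤ) : Prop :=
  Odd (Nat.card {k : ZMod m // Above m f c.1 c.2 k})

/-- the area: the number of unit cells enclosed by the loop -/
noncomputable def area (m : ℕ) (f : ZMod m → ℤ × ℤ) : ℕ := Nat.card {c : ℤ × ℤ // Encl m f c}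

/-- expectation under the uniform law on the (rooted, oriented) self-avoiding polygons of
perimeter `2 n` -/
noncomputable def E (n : ℕ) (F : (ZMod (2 * n) → ℤ × ℤ) → ℝ) : ℝ :=
  (∑ᶠ f ∈ {f : ZMod (2 * n) → ℤ × ℤ | IsLoop (2 * n) f}, F f) /
    ({f : ZMod (2 * n) → ℤ × ℤ | IsLoop (2 * n) f}.ncard : ℝ)

/-- the mean area `E[A_n]` -/
noncomputable def meanArea (n : ℕ) : ℝ := E n (fun f => (area (2 * n) f : ℝ))

/-- `E[g(A_n / a)]` -/
noncomputable def L (n : ℕ) (a : ℝ) (g : ℝ → ℝ) : ℝ := E n (fun f => g ((area (2 * n) f : ℝ) / a))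

/-- the law of `A_n / E[A_n]` converges weakly to `ν` along the filter `F` -/
def LawTends (F : Filter ℕ) (ν : Measure ℝ) : Prop :=
  ∀ g : ℝ → ℝ, Continuous g → (∃ B, ∀ x, |g x| ≤ B) →
    Tendsto (fun n => L n (meanArea n) g) F (𝓝 (∫ x, g x ∂ν))

/-- nonnegative Lipschitz functions with bounded support -/
def TestFun (g : ℝ → ℝ) : Prop :=
  (∃ Λ : ℝ, ∀ x y, |g x - g y| ≤ Λ * |x - y|) ∧ (∀ x, 0 ≤ g x) ∧ ∃ M : ℝ, ∀ x, M ≤ |x| → g x = 0

lemma c_eq (n : ℕ) : (c n : ℝ) = H981.cr' n := by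
  rw [H981.cr'_eq]
  unfold c H981.C H981.IsSAW
  congr 1
  apply Nat.card_congr
  apply Equiv.subtypeEquivRight
  intro f
  constructor
  · rintro ⟨h0, h1, h2⟩
    exact ⟨h0, h2, h1⟩
  · rintro ⟨h0, h2, h1⟩
    exact ⟨h0, h1, h2⟩

/-- **Theorem.** Let `A_n` be the area of the uniform self-avoiding polygon of perimeter `2n`,
`p_{2n}` the number of these polygons up to translation, `μ` the connective constant of `ℤ²`.
(1) There is `K` such that for all `n ≥ 2`, all `a ≥ n / 2` and all `g : ℝ → [-1, 1]` with Lipschitz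
constant `1`: `∑_{n ≤ k < 2n} (E[g(A_{k+1} / a)] - E[g(A_k / a)])² ≤ K`.
Let `C, c > 0`, `θ ≥ 1`, `β` real and `ν` a probability on `ℝ`.
(2) Let `S` be a set of integers that meets `[n, n + δ √n]` for every `δ > 0` and all large `n`. If
`p_{2n} ~ C n^β μ^(2n)`, `E[A_n] ~ c n^θ` and `A_n / E[A_n] → ν` in distribution along `n ∈ S`, then
all three hold along all `n`.
(3) If `∑_{2≤j≤n} p_{2j} μ^(-2j) = s + C ∫_1^n t^β dt + o(n^(β+1/2))`,
`∑_{2≤j≤n} p_{2j} μ^(-2j) E[A_j] = r + C c ∫_1^n t^(β+θ) dt + o(n^(β+θ+1/2))` for some `s, r`, and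
for every nonnegative Lipschitz function `g` with bounded support, for some `q`,
`∑_{2≤j≤n} p_{2j} μ^(-2j) E[g(A_j / (c j^θ))] = q + C ∫ g dν ∫_1^n t^β dt + o(n^(β+1/2))`,
then `p_{2n} ~ C n^β μ^(2n)`, `E[A_n] ~ c n^θ` and `A_n / E[A_n] → ν` in distribution. -/
theorem result : ∃ μ : ℝ, 0 < μ ∧
    Tendsto (fun n : ℕ => (c n : ℝ) ^ ((1:ℝ) / (n : ℝ))) atTop (𝓝 μ) ∧
    (∃ K : ℝ, ∀ n : ℕ, 2 ≤ n → ∀ a : ℝ, (n : ℝ) / 2 ≤ a → ∀ g : ℝ → ℝ,
      (∀ x y, |g x - g y| ≤ |x - y|) → (∀ x, |g x| ≤ 1) →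
      ∑ k ∈ Finset.Ico n (2 * n), (L (k + 1) a g - L k a g) ^ 2 ≤ K) ∧
    (∀ S : Set ℕ,
      (∀ δ : ℝ, 0 < δ → ∀ᶠ n : ℕ in atTop, ∃ k ∈ S, n ≤ k ∧ (k : ℝ) ≤ n + δ * √n) →
      ∀ (C c β θ : ℝ) (ν : Measure ℝ), 0 < C → 0 < c → 1 ≤ θ → IsProbabilityMeasure ν →
      Tendsto (fun n : ℕ => p n / ((n : ℝ) ^ β * μ ^ (2 * n))) (atTop ⊓ 𝓟 S) (𝓝 C) →
      Tendsto (fun n : ℕ => meanArea n / (n : ℝ) ^ θ) (atTop ⊓ 𝓟 S) (𝓝 c) →
      LawTends (atTop ⊓ 𝓟 S) ν →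
      Tendsto (fun n : ℕ => p n / ((n : ℝ) ^ β * μ ^ (2 * n))) atTop (𝓝 C) ∧
        Tendsto (fun n : ℕ => meanArea n / (n : ℝ) ^ θ) atTop (𝓝 c) ∧ LawTends atTop ν) ∧
    (∀ (C c β θ s r : ℝ) (ν : Measure ℝ), 0 < C → 0 < c → 1 ≤ θ → IsProbabilityMeasure ν →
      Tendsto (fun n : ℕ => (∑ j ∈ Finset.Icc 2 n, p j / μ ^ (2 * j) - s -
        C * ∫ t in (1 : ℝ)..(n : ℝ), t ^ β) / (n : ℝ) ^ (β + 1 / 2)) atTop (𝓝 0) →
      Tendsto (fun n : ℕ => (∑ j ∈ Finset.Icc 2 n, p j * meanArea j / μ ^ (2 * j) - r -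
        C * c * ∫ t in (1 : ℝ)..(n : ℝ), t ^ (β + θ)) / (n : ℝ) ^ (β + θ + 1 / 2)) atTop (𝓝 0) →
      (∀ g : ℝ → ℝ, TestFun g → ∃ q : ℝ,
        Tendsto (fun n : ℕ => (∑ j ∈ Finset.Icc 2 n,
          p j * L j (c * (j : ℝ) ^ θ) g / μ ^ (2 * j) - q -
          C * (∫ x, g x ∂ν) * ∫ t in (1 : ℝ)..(n : ℝ), t ^ β) / (n : ℝ) ^ (β + 1 / 2))
          atTop (𝓝 0)) →
      Tendsto (fun n : ℕ => p n / ((n : ℝ) ^ β * μ ^ (2 * n))) atTop (𝓝 C) ∧
        Tendsto (fun n : ℕ => meanArea n / (n : ℝ) ^ θ) atTop (𝓝 c) ∧ LawTends atTop ν) := by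
  refine ⟨H981.mu, H981.mu_pos, ?_, Q294.Sq9.qv_area, ?_, ?_⟩
  · simp only [c_eq]
    exact H981.tendsto_root
  · intro S hS C c β θ ν hC hc hθ hν h1 h2 h3
    exact Q294.Sq10.sparse hθ S hS C c β hC hc ν h1 h2 h3
  · intro C c β θ s r ν hC hc hθ hν h1 h2 h3
    exact Q294.Sq10.tauber hθ C c β s r hC hc ν h1 h2 h3

end Pool.Agent.Results.MP_f6626d_co.AreaLawVariation
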