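import Pool.Agent.Q172.SapLim.Main
import Pool.Agent.Q172.SawLim.Laws

/-!
The area of square-lattice self-avoiding polygons: the set of all limit laws of `A_n / E[A_n]`,
jointly with the limits of all its moments, is nonempty, compact and connected.  So there is either
one limit law or there are uncountably many, none of them isolated.
-/

set_option autoImplicit false

open Filter Topology MeasureTheory
open scoped ENNReal

namespace Pool.Agent.Results.MP_f6626d_co.LimitLaws

/-- a closed nearest-neighbour loop on `ℤ²` with `m` steps, rooted at the origin and oriented,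
that visits no vertex twice -/
def IsLoop (m : ℕ) (f : ZMod m → ℤ × ℤ) : Prop :=
  f 0 = 0 ∧ Function.Injective f ∧
    ∀ i : ZMod m, |(f (i + 1)).1 - (f i).1| + |(f (i + 1)).2 - (f i).2| = 1

/-- the edge from `f k` to `f (k+1)` is horizontal, joins the columns `x = a` and `x = a + 1`, and
has height larger than `b`: it lies above the unit cell `[a, a+1] × [b, b+1]` -/
def Above (m : ℕ) (f : ZMod m → ℤ × ℤ) (a b : ℤ) (k : ZMod m) : Prop :=
  (((f k).1 = a ∧ (f (k + 1)).1 = a + 1) ∨ ((f k).1 = a + 1 ∧ (f (k + 1)).1 = a)) ∧ b < (f k).2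

/-- the unit cell `[a, a+1] × [b, b+1]` is enclosed by the loop: the vertical ray from the cell
upwards crosses an odd number of edges -/
def Encl (m : ℕ) (f : ZMod m → ℤ × ℤ) (c : ℤ × ℤ) : Prop :=
  Odd (Nat.card {k : ZMod m // Above m f c.1 c.2 k})

/-- the area: the number of unit cells enclosed by the loop -/
noncomputable def area (m : ℕ) (f : ZMod m → ℤ × ℤ) : ℕ := Nat.card {c : ℤ × ℤ // Encl m f c}

/-- expectation under the uniform law on the (rooted, oriented) self-avoiding polygons of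
perimeter `2 n` -/
noncomputable def E (n : ℕ) (F : (ZMod (2 * n) → ℤ × ℤ) → ℝ) : ℝ :=
  (∑ᶠ f ∈ {f : ZMod (2 * n) → ℤ × ℤ | IsLoop (2 * n) f}, F f) /
    ({f : ZMod (2 * n) → ℤ × ℤ | IsLoop (2 * n) f}.ncard : ℝ)

/-- the mean area `E[A_n]` -/
noncomputable def meanArea (n : ℕ) : ℝ := E n (fun f => (area (2 * n) f : ℝ))

/-- `E[g(A_n / E[A_n])]` -/
noncomputable def L (n : ℕ) (g : ℝ → ℝ) : ℝ := E n (fun f => g ((area (2 * n) f : ℝ) / meanArea n))

/-- the `k`-th moment `E[(A_n / E[A_n])^k]` of the normalised area -/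
noncomputable def nmoment (k n : ℕ) : ℝ := E n (fun f => ((area (2 * n) f : ℝ) / meanArea n) ^ k)

/-- along `φ 0 < φ 1 < …` the laws of `A_n / E[A_n]` converge weakly to `ν` -/
def LawsTend (φ : ℕ → ℕ) (ν : ProbabilityMeasure ℝ) : Prop :=
  ∀ g : BoundedContinuousFunction ℝ ℝ,
    Tendsto (fun j => L (φ j) g) atTop (𝓝 (∫ x, g x ∂(ν : Measure ℝ)))

/-- the set of the limit laws of `A_n / E[A_n]` -/
def LimLaws : Set (ProbabilityMeasure ℝ) :=
  {ν | ∃ φ : ℕ → ℕ, StrictMono φ ∧ LawsTend φ ν}

/-- the set of the joint limits, along subsequences, of the law of `A_n / E[A_n]` and of the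
sequence of all its moments in `[0, ∞]` -/
def JointLimits : Set (ProbabilityMeasure ℝ × (ℕ → ℝ≥0∞)) :=
  {p | ∃ φ : ℕ → ℕ, StrictMono φ ∧ LawsTend φ p.1 ∧
    ∀ k, Tendsto (fun j => ENNReal.ofReal (nmoment k (φ j))) atTop (𝓝 (p.2 k))}

theorem lawsTend_iff (φ : ℕ → ℕ) (ν : ProbabilityMeasure ℝ) :
    LawsTend (fun j => φ j + 2) ν ↔ Tendsto (fun j => Q172.SapLim.P (φ j)) atTop (𝓝 ν) := by
  rw [ProbabilityMeasure.tendsto_iff_forall_integral_tendsto]
  refine forall_congr' fun g => ?_
  have : ∀ j, ∫ x, g x ∂(Q172.SapLim.P (φ j) : Measure ℝ) = L (φ j + 2) g := fun j =>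
    Pool.Agent.W387.Q.AL.integral_law (N := φ j + 2) (by omega) g
  simp only [this]

theorem shift {φ : ℕ → ℕ} (hφ : StrictMono φ) :
    StrictMono (fun j => φ (j + 2) - 2) ∧ ∀ j, φ (j + 2) - 2 + 2 = φ (j + 2) := by
  have h1 : ∀ j, 2 ≤ φ (j + 2) := fun j => by
    have := hφ.id_le (j + 2)
    simp only [id] at this
    omega
  refine ⟨fun a b hab => ?_, fun j => by have := h1 j; omega⟩
  have h2 := hφ (show a + 2 < b + 2 by omega)
  have h3 := h1 a
  simp only
  omega

theorem jointLimits_eq : JointLimits =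
    {p | MapClusterPt p atTop (fun k => (Q172.SapLim.P k, Q172.SapLim.mom k))} := by
  ext ⟨ν, b⟩
  constructor
  · rintro ⟨φ, hφ, h1, h2⟩
    obtain ⟨hs, he⟩ := shift hφ
    have t2 : Tendsto (fun j : ℕ => j + 2) atTop atTop := tendsto_add_atTop_nat 2
    refine MapClusterPt.of_comp hs.tendsto_atTop (Tendsto.mapClusterPt ?_)
    rw [Prod.tendsto_iff]
    refine ⟨?_, ?_⟩
    · refine (lawsTend_iff (fun j => φ (j + 2) - 2) ν).1 ?_
      intro g
      have := (h1 g).comp t2
      refine this.congr fun j => ?_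
      simp only [Function.comp, he]
    · refine tendsto_pi_nhds.2 fun k => ((h2 k).comp t2).congr fun j => ?_
      show ENNReal.ofReal (nmoment k (φ (j + 2))) = ENNReal.ofReal (nmoment k (φ (j + 2) - 2 + 2))
      rw [he]
  · intro h
    obtain ⟨ψ, hψ, ht⟩ := MapClusterPt.tendsto_subseq h
    rw [Prod.tendsto_iff] at ht
    refine ⟨fun j => ψ j + 2, fun a b hab => by have := hψ hab; simp only; omega, ?_, fun k => ?_⟩
    · exact (lawsTend_iff ψ ν).2 ht.1
    · exact (tendsto_pi_nhds.1 ht.2) k

theorem limitLaws_eq : LimLaws = Prod.fst '' JointLimits := by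
  ext ν
  constructor
  · rintro ⟨φ, hφ, h1⟩
    obtain ⟨hs, he⟩ := shift hφ
    have t2 : Tendsto (fun j : ℕ => j + 2) atTop atTop := tendsto_add_atTop_nat 2
    obtain ⟨b, -, θ, hθ, hb⟩ := isCompact_univ.tendsto_subseq
      (x := fun j => Q172.SapLim.mom (φ (j + 2) - 2)) (fun j => Set.mem_univ _)
    refine ⟨(ν, b), ⟨fun j => φ (θ j + 2), fun a c hac => hφ (by have := hθ hac; omega), ?_, ?_⟩,
      rfl⟩
    · intro g
      exact (h1 g).comp (t2.comp hθ.tendsto_atTop)
    · intro k
      refine ((tendsto_pi_nhds.1 hb) k).congr fun j => ?_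
      show ENNReal.ofReal (nmoment k (φ (θ j + 2) - 2 + 2)) = ENNReal.ofReal (nmoment k (φ (θ j + 2)))
      rw [he]
  · rintro ⟨p, ⟨φ, hφ, h1, -⟩, rfl⟩
    exact ⟨φ, hφ, h1⟩

theorem cluster_shift {T : Type*} [TopologicalSpace T] (v : ℕ → T) (x : T) :
    MapClusterPt x atTop v ↔ MapClusterPt x atTop (fun n => v (n + 2)) := by
  have h : Filter.map (fun n => v (n + 2)) atTop = Filter.map v atTop := by
    have h1 := congrArg (Filter.map v) (map_add_atTop_eq_nat 2)
    rw [Filter.map_map] at h1
    exact h1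
  unfold MapClusterPt
  rw [h]

theorem cluster_comp {T S : Type*} [TopologicalSpace T] [TopologicalSpace S] [T2Space S]
    {u : ℕ → T} {K : Set T} (hK : IsCompact K) (hu : ∀ n, u n ∈ K) {F : T → S} (hF : Continuous F) :
    {x | MapClusterPt x atTop (fun n => F (u n))} = F '' {p | MapClusterPt p atTop u} := by
  ext x
  constructor
  · intro hx
    obtain ⟨U, hU, hUx⟩ := mapClusterPt_iff_ultrafilter.1 hx
    obtain ⟨p, -, hp⟩ := isCompact_iff_ultrafilter_le_nhds.1 hK (U.map u) (by
      rw [Filter.le_principal_iff]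
      exact Filter.mem_map.2 (Filter.univ_mem' hu))
    refine ⟨p, mapClusterPt_iff_ultrafilter.2 ⟨U, hU, hp⟩, ?_⟩
    exact tendsto_nhds_unique ((hF.tendsto p).comp hp) hUx
  · rintro ⟨p, hp, rfl⟩
    exact hp.continuousAt_comp hF.continuousAt

theorem mem_K (k : ℕ) : (Q172.SapLim.P k, Q172.SapLim.mom k) ∈
    closure (Set.range Q172.SapLim.P) ×ˢ (Set.univ : Set (ℕ → ℝ≥0∞)) :=
  ⟨subset_closure ⟨k, rfl⟩, Set.mem_univ _⟩

/-- **Theorem.** For the area `A_n` of the uniform self-avoiding polygon of perimeter `2 n`: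
(1) the set of the joint limits of the law of `A_n / E[A_n]` and of the sequence of its moments is
nonempty, compact and connected, in the product of the weak topology and of `[0, ∞]^ℕ`;
(2) so is the set of the limit laws of `A_n / E[A_n]`, and every limit law occurs in (1);
(3) either `A_n / E[A_n]` converges in distribution, or it has uncountably many limit laws, each
of them a limit of others;
(4) every limit law `ν` is carried by `[0, ∞)`, its `k`-th moment is at most the limit `b k` of the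
`k`-th moments, and `b 0 = b 1 = 1`;
(5) for every `k` the limit points in `[0, ∞]` of the `k`-th moments form a closed interval, and
for every bounded continuous `g` those of `E[g(A_n / E[A_n])]` are the numbers `∫ g dν`, `ν` a limit
law, and form a closed interval. -/
theorem result :
    (IsCompact JointLimits ∧ IsConnected JointLimits) ∧
    (IsCompact LimLaws ∧ IsConnected LimLaws ∧ LimLaws = Prod.fst '' JointLimits) ∧
    ((∃ ν, LawsTend (fun n => n) ν) ∨
      (¬ LimLaws.Countable ∧ ∀ ν ∈ LimLaws, AccPt ν (𝓟 LimLaws))) ∧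
    (∀ p ∈ JointLimits, (p.1 : Measure ℝ) (Set.Iio 0) = 0 ∧ p.2 0 = 1 ∧ p.2 1 = 1 ∧
      ∀ k, ∫⁻ x, ENNReal.ofReal x ^ k ∂(p.1 : Measure ℝ) ≤ p.2 k) ∧
    (∀ k, ∃ a b : ℝ≥0∞, a ≤ b ∧
      {x | MapClusterPt x atTop (fun n => ENNReal.ofReal (nmoment k n))} = Set.Icc a b) ∧
    (∀ g : BoundedContinuousFunction ℝ ℝ, ∃ a b : ℝ, a ≤ b ∧
      {x | MapClusterPt x atTop (fun n => L n g)} = Set.Icc a b ∧
      Set.Icc a b = (fun ν : ProbabilityMeasure ℝ => ∫ x, g x ∂(ν : Measure ℝ)) '' LimLaws) := by
  have hJ : IsCompact JointLimits ∧ IsConnected JointLimits := by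
    rw [jointLimits_eq]
    exact Q172.SapLim.joint_connected
  have hC : IsCompact LimLaws := by
    rw [limitLaws_eq]
    exact hJ.1.image continuous_fst
  have hN : IsConnected LimLaws := by
    rw [limitLaws_eq]
    exact hJ.2.image _ continuous_fst.continuousOn
  have hK := Q172.SapLim.tight.prod (isCompact_univ (X := ℕ → ℝ≥0∞))
  refine ⟨hJ, ⟨hC, hN, limitLaws_eq⟩, ?_, ?_, fun k => ?_, fun g => ?_⟩
  · rcases Q172.SawLim.singleton_or_uncountable hN with ⟨ν, hν⟩ | h
    · left
      refine ⟨ν, ?_⟩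
      have hmem : ∀ ν', MapClusterPt ν' atTop Q172.SapLim.P → ν' = ν := by
        intro ν' h'
        have h2 : ν' ∈ Prod.fst '' {p | MapClusterPt p atTop
            (fun k => (Q172.SapLim.P k, Q172.SapLim.mom k))} := by
          rw [← cluster_comp hK mem_K continuous_fst]
          exact h'
        rw [← jointLimits_eq, ← limitLaws_eq, hν] at h2
        exact h2
      have ht : Tendsto Q172.SapLim.P atTop (𝓝 ν) :=
        Q172.SapLim.tight.tendsto_nhds_of_unique_mapClusterPt
          (Eventually.of_forall fun k => subset_closure ⟨k, rfl⟩) (fun y _ hy => hmem y hy)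
      intro g
      have h3 := (lawsTend_iff (fun n => n) ν).2 ht g
      exact (tendsto_add_atTop_iff_nat 2).1 h3
    · right
      refine ⟨h, ?_⟩
      refine hN.isPreconnected.preperfect_of_nontrivial ?_
      by_contra hcon
      rw [Set.not_nontrivial_iff] at hcon
      exact h hcon.countable
  · rintro ⟨ν, b⟩ hp
    rw [jointLimits_eq] at hp
    obtain ⟨ψ, -, ht⟩ := MapClusterPt.tendsto_subseq hp
    exact Q172.SapLim.limit_facts ht
  · have e : {x | MapClusterPt x atTop (fun n => ENNReal.ofReal (nmoment k n))} =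
        (fun p : ProbabilityMeasure ℝ × (ℕ → ℝ≥0∞) => p.2 k) '' JointLimits := by
      rw [jointLimits_eq, ← cluster_comp hK mem_K (by fun_prop)]
      ext x
      exact cluster_shift _ x
    have h1 := hJ.2.image (fun p : ProbabilityMeasure ℝ × (ℕ → ℝ≥0∞) => p.2 k)
      (by fun_prop)
    have h2 := hJ.1.image (f := fun p : ProbabilityMeasure ℝ × (ℕ → ℝ≥0∞) => p.2 k)
      (by fun_prop)
    have h3 := eq_Icc_of_connected_compact h1 h2
    refine ⟨_, _, ?_, e.trans h3⟩
    rw [h3] at h1
    exact Set.nonempty_Icc.1 h1.nonempty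
  · have hg : Continuous (fun ν : ProbabilityMeasure ℝ => ∫ x, g x ∂(ν : Measure ℝ)) := by
      rw [continuous_iff_continuousAt]
      intro ν
      exact ProbabilityMeasure.tendsto_iff_forall_integral_tendsto.1 tendsto_id g
    have e : {x | MapClusterPt x atTop (fun n => L n g)} =
        (fun ν : ProbabilityMeasure ℝ => ∫ x, g x ∂(ν : Measure ℝ)) '' LimLaws := by
      have h0 := cluster_comp hK mem_K (hg.comp continuous_fst)
      rw [limitLaws_eq, jointLimits_eq, Set.image_image]
      refine Eq.trans ?_ h0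
      ext x
      refine (cluster_shift _ x).trans ?_
      have : ∀ j, ∫ x, g x ∂(Q172.SapLim.P j : Measure ℝ) = L (j + 2) g := fun j =>
        Pool.Agent.W387.Q.AL.integral_law (N := j + 2) (by omega) g
      simp only [Set.mem_ofPred_eq, Function.comp, this]
    have h1 := hN.image _ hg.continuousOn
    have h2 := hC.image hg
    have h3 := eq_Icc_of_connected_compact h1 h2
    refine ⟨_, _, ?_, e.trans h3, h3.symm⟩
    rw [h3] at h1
    exact Set.nonempty_Icc.1 h1.nonempty

end Pool.Agent.Results.MP_f6626d_co.LimitLaws
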