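import Pool.Agent.H924P.Mean
import Pool.Agent.Q91.PT.AllB

/-!
Area law of square-lattice self-avoiding polygons, local form: the number `N_n(a)` of polygons of perimeter `2n` and
area `a` is smooth in `a` (ratios of neighbours, differences of all orders, residue classes, characteristic
function) and in `n` (`N_{n+1}(a)/N_n(a)` is close to `μ²`); consecutive area laws are close in total variation.

Method: Kesten's pattern theorem (modules `Pool/Agent/Q91/PT`) gives a positive density of corners of the polygon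
that can be flipped independently of each other, each flip changing the area by one; averaged over these flips the
indicator of `area = a` changes little under the insertion of a bump, so that Kesten's method for the ratio limit
theorem works at a fixed area.
-/

set_option autoImplicit false

open Filter Topology

namespace Pool.Agent.Results.MP_f6626d_co.LocalAreaLaw

/-- the number of `n`-step self-avoiding walks on `ℤ²` started at the origin -/
noncomputable def c (n : ℕ) : ℕ :=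
  Nat.card {f : Fin (n + 1) → ℤ × ℤ // f 0 = 0 ∧ Function.Injective f ∧
    ∀ i : Fin n, |(f i.succ).1 - (f i.castSucc).1| + |(f i.succ).2 - (f i.castSucc).2| = 1}

/-- a closed nearest-neighbour loop on `ℤ²` with `m` steps, rooted at the origin and oriented,
that visits no vertex twice -/
def IsLoop (m : ℕ) (f : ZMod m → ℤ × ℤ) : Prop :=
  f 0 = 0 ∧ Function.Injective f ∧
    ∀ i : ZMod m, |(f (i + 1)).1 - (f i).1| + |(f (i + 1)).2 - (f i).2| = 1

/-- the width of a loop -/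
noncomputable def width (m : ℕ) (f : ZMod m → ℤ × ℤ) : ℕ :=
  sSup {w : ℕ | ∃ i j, w = ((f i).1 - (f j).1).natAbs}

/-- the height of a loop -/
noncomputable def height (m : ℕ) (f : ZMod m → ℤ × ℤ) : ℕ :=
  sSup {w : ℕ | ∃ i j, w = ((f i).2 - (f j).2).natAbs}

/-- the edge from `f k` to `f (k+1)` is horizontal, joins the columns `x = a` and `x = a + 1`, and
has height larger than `b`: it lies above the unit cell `[a, a+1] × [b, b+1]` -/
def Above (m : ℕ) (f : ZMod m → ℤ × ℤ) (a b : ℤ) (k : ZMod m) : Prop :=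
  (((f k).1 = a ∧ (f (k + 1)).1 = a + 1) ∨ ((f k).1 = a + 1 ∧ (f (k + 1)).1 = a)) ∧ b < (f k).2

/-- the unit cell `[a, a+1] × [b, b+1]` is enclosed by the loop: the vertical ray from the cell
upwards crosses an odd number of edges -/
def Encl (m : ℕ) (f : ZMod m → ℤ × ℤ) (c : ℤ × ℤ) : Prop :=
  Odd (Nat.card {k : ZMod m // Above m f c.1 c.2 k})

/-- the area: the number of unit cells enclosed by the loop -/
noncomputable def area (m : ℕ) (f : ZMod m → ℤ × ℤ) : ℕ := Nat.card {c : ℤ × ℤ // Encl m f c}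

/-- the number of self-avoiding polygons of perimeter `2n` up to translation with (width, height) in `B` and area in
`T`: the number of these rooted oriented loops divided by `4n` -/
noncomputable def N (n : ℕ) (B : Set (ℕ × ℕ)) (T : Set ℤ) : ℝ :=
  (Nat.card {f : ZMod (2 * n) → ℤ × ℤ // IsLoop (2 * n) f ∧
    (width (2 * n) f, height (2 * n) f) ∈ B ∧ (area (2 * n) f : ℤ) ∈ T} : ℝ) / (4 * (n : ℝ))

/-- the number `p_{2n}` of self-avoiding polygons of perimeter `2n` up to translation -/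
noncomputable def p (n : ℕ) : ℝ := N n Set.univ Set.univ

lemma c_eq (n : ℕ) : (c n : ℝ) = H981.cr' n := by
  rw [H981.cr'_eq]
  unfold c H981.C H981.IsSAW
  congr 1
  apply Nat.card_congr
  apply Equiv.subtypeEquivRight
  intro f
  constructor
  · rintro ⟨h0, h1, h2⟩
    exact ⟨h0, h2, h1⟩
  · rintro ⟨h0, h2, h1⟩
    exact ⟨h0, h1, h2⟩

lemma mono {n : ℕ} (hn : 2 ≤ n) {B : Set (ℕ × ℕ)} {T : Set ℤ} : N n B T ≤ p n := by
  unfold p N
  have hn0 : (0:ℝ) < 4 * (n:ℝ) := by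
    have : (0:ℝ) < n := by exact_mod_cast (by omega : 0 < n)
    positivity
  rw [div_le_div_iff_of_pos_right hn0]
  have hm : NeZero (2 * n) := ⟨by omega⟩
  have hfin : Finite {f : ZMod (2 * n) → ℤ × ℤ // IsLoop (2 * n) f ∧
      (width (2 * n) f, height (2 * n) f) ∈ (Set.univ : Set (ℕ × ℕ)) ∧
      (area (2 * n) f : ℤ) ∈ (Set.univ : Set ℤ)} :=
    ((Pool.Agent.H924P.finite_loops (2 * n)).subset (fun f (hf : IsLoop (2 * n) f ∧
      (width (2 * n) f, height (2 * n) f) ∈ (Set.univ : Set (ℕ × ℕ)) ∧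
      (area (2 * n) f : ℤ) ∈ (Set.univ : Set ℤ)) => hf.1)).to_subtype
  exact_mod_cast Nat.card_le_card_of_injective
    (fun f : {f : ZMod (2 * n) → ℤ × ℤ // IsLoop (2 * n) f ∧
      (width (2 * n) f, height (2 * n) f) ∈ B ∧ (area (2 * n) f : ℤ) ∈ T} =>
      (⟨f.1, f.2.1, Set.mem_univ _, Set.mem_univ _⟩ :
        {f : ZMod (2 * n) → ℤ × ℤ // IsLoop (2 * n) f ∧
          (width (2 * n) f, height (2 * n) f) ∈ (Set.univ : Set (ℕ × ℕ)) ∧
          (area (2 * n) f : ℤ) ∈ (Set.univ : Set ℤ)}))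
    (fun f g h => Subtype.ext (congrArg (fun x => x.1) h))

theorem core (hf1 : Pool.Agent.Q91.PT.S_fn1) (hf2 : Pool.Agent.Q91.PT.S_fn2)
    (hf3 : Pool.Agent.Q91.PT.S_fn3) (hf6 : Pool.Agent.Q91.PT.S_fn6) : ∃ μ K δ : ℝ, 0 < μ ∧ 0 < K ∧ 0 < δ ∧
    Tendsto (fun n : ℕ => (c n : ℝ) ^ ((1:ℝ) / (n : ℝ))) atTop (𝓝 μ) ∧
    (∀ n : ℕ, 2 ≤ n → 0 < p n ∧
      (∀ (B : Set (ℕ × ℕ)) (a a' : ℤ), (a' = a + 1 ∨ a' = a - 1) →
        Real.exp (-δ * n) * p n ≤ N n B {a} →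
        |N n B {a'} / N n B {a} - 1| ≤ K * √((1 + Real.log (p n / N n B {a})) / n)) ∧
      (∀ a : ℤ, 0 < N n Set.univ {a} →
        (Real.log n ^ 2 + Real.log (p n / N n Set.univ {a})) ^ 2 ≤ δ * n →
        |N (n + 1) Set.univ {a} / (μ ^ 2 * N n Set.univ {a}) - 1| ≤
          K * ((Real.log n ^ 2 + Real.log (p n / N n Set.univ {a})) / √n)) ∧
      (∀ S : Finset ℤ, ∑ a ∈ S, |N (n + 1) Set.univ {a} / p (n + 1) - N n Set.univ {a} / p n| ≤
        K * (Real.log n ^ 2 / √n)) ∧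
      (∀ (B : Set (ℕ × ℕ)) (t : ℝ), |t| ≤ Real.pi →
        ‖∑ᶠ f ∈ {f : ZMod (2 * n) → ℤ × ℤ | IsLoop (2 * n) f ∧
            (width (2 * n) f, height (2 * n) f) ∈ B},
          Complex.exp (Complex.I * t * (area (2 * n) f : ℂ))‖ / (4 * (n : ℝ)) ≤
          K * Real.exp (-δ * n * t ^ 2) * p n) ∧
      (∀ (B : Set (ℕ × ℕ)) (q : ℕ) (r : ℤ), 1 ≤ q →
        |N n B {a | (q : ℤ) ∣ a - r} - N n B Set.univ / q| ≤ K * Real.exp (-δ * n / q ^ 2) * p n)) ∧
    ∀ k : ℕ, ∃ Kk : ℝ, ∀ n : ℕ, 2 ≤ n → ∀ (B : Set (ℕ × ℕ)) (S : Finset ℤ),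
      ∑ a ∈ S, |∑ j ∈ Finset.range (k + 1), (-1) ^ j * (k.choose j : ℝ) * N n B {a + (j : ℤ)}| ≤
        Kk * p n * (n : ℝ) ^ (-(k : ℝ) / 2) := by
  obtain ⟨K1, δ1, hK1, hδ1, h1⟩ := hf1
  obtain ⟨K2, δ2, hK2, hδ2, h2⟩ := hf2
  obtain ⟨K6, δ6, hK6, hδ6, h6⟩ := hf6
  have eN : ∀ n B T, N n B T = Pool.Agent.Q91.PT.pl n B T := fun n B T => rfl
  have eP : ∀ n, p n = Pool.Agent.Q91.PT.pl n Set.univ Set.univ := fun n => rfl
  obtain ⟨K, hK⟩ : ∃ K : ℝ, K = max K1 (max K2 K6) := ⟨_, rfl⟩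
  obtain ⟨δ, hδ⟩ : ∃ δ : ℝ, δ = min δ1 (min δ2 δ6) := ⟨_, rfl⟩
  have a1 : K1 ≤ K := hK ▸ le_max_left _ _
  have a2 : K2 ≤ K := hK ▸ le_trans (le_max_left _ _) (le_max_right _ _)
  have a6 : K6 ≤ K := hK ▸ le_trans (le_max_right _ _) (le_max_right _ _)
  have b1 : δ ≤ δ1 := hδ ▸ min_le_left _ _
  have b2 : δ ≤ δ2 := hδ ▸ le_trans (min_le_right _ _) (min_le_left _ _)
  have b6 : δ ≤ δ6 := hδ ▸ le_trans (min_le_right _ _) (min_le_right _ _)
  have hKp : 0 < K := lt_of_lt_of_le hK1 a1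
  have hδp : 0 < δ := by rw [hδ]; exact lt_min hδ1 (lt_min hδ2 hδ6)
  have hlogp : ∀ n : ℕ, 2 ≤ n → ∀ (B : Set (ℕ × ℕ)) (T : Set ℤ), 0 < N n B T →
      0 ≤ Real.log (p n / N n B T) := by
    intro n hn B T hpos
    apply Real.log_nonneg
    rw [one_le_div hpos]
    exact mono hn
  refine ⟨H981.mu, K, δ, H981.mu_pos, hKp, hδp, ?_, ?_, ?_⟩
  · refine H981.tendsto_root.congr fun n => ?_
    rw [c_eq]
  · intro n hn
    have hn0 : (0:ℝ) < n := by exact_mod_cast (by omega : 0 < n)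
    have hp0 : 0 < p n := (h1 n hn).1
    refine ⟨hp0, ?_, ?_, ?_, ?_, ?_⟩
    · intro B a a' haa hle
      have hle' : Real.exp (-δ1 * n) * p n ≤ N n B {a} := by
        refine le_trans ?_ hle
        apply mul_le_mul_of_nonneg_right _ hp0.le
        apply Real.exp_le_exp.mpr
        nlinarith
      refine le_trans ((h1 n hn).2 B a a' haa hle') ?_
      exact mul_le_mul_of_nonneg_right a1 (Real.sqrt_nonneg _)
    · intro a ha hle
      have hl := hlogp n hn Set.univ {a} ha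
      refine le_trans ((h6 n hn).1 a ha (le_trans hle ?_)) ?_
      · exact mul_le_mul_of_nonneg_right b6 hn0.le
      · apply mul_le_mul_of_nonneg_right a6
        apply div_nonneg _ (Real.sqrt_nonneg _)
        exact add_nonneg (sq_nonneg _) hl
    · intro S
      refine le_trans ((h6 n hn).2 S) ?_
      apply mul_le_mul_of_nonneg_right a6
      positivity
    · intro B t ht
      refine le_trans ((h2 n hn B).1 t ht) ?_
      apply mul_le_mul_of_nonneg_right _ hp0.le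
      apply mul_le_mul a2 _ (Real.exp_pos _).le hKp.le
      apply Real.exp_le_exp.mpr
      have : 0 ≤ (n:ℝ) * t ^ 2 := by positivity
      nlinarith
    · intro B q r hq
      refine le_trans ((h2 n hn B).2 q r hq) ?_
      apply mul_le_mul_of_nonneg_right _ hp0.le
      apply mul_le_mul a2 _ (Real.exp_pos _).le hKp.le
      apply Real.exp_le_exp.mpr
      have hq0 : (0:ℝ) < (q:ℝ) ^ 2 := by
        have : (0:ℝ) < q := by exact_mod_cast (by omega : 0 < q)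
        positivity
      rw [div_le_div_iff_of_pos_right hq0]
      nlinarith
  · intro k
    obtain ⟨Kk, _, h⟩ := hf3 k
    exact ⟨Kk, fun n hn B S => h n hn B S⟩

/-- **Theorem.** Let `μ` be the connective constant of `ℤ²`, `p_{2n}` the number of self-avoiding polygons of
perimeter `2n`, `N_B(a)` the number of those with (width, height) in `B` and area `a`, `N(a)` the number of those
with area `a`, `ℓ = log (p_{2n} / N(a))`.  There are `K, δ > 0` such that for all `n ≥ 2`, all `B`, all `a`: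
(1) `|N_B(a ± 1) / N_B(a) - 1| ≤ K √((1 + log (p_{2n} / N_B(a))) / n)` if `N_B(a) ≥ e^(-δ n) p_{2n}`;
(2) `|N_{2n+2}(a) / (μ² N_{2n}(a)) - 1| ≤ K (log² n + ℓ) / √n` if `N(a) > 0` and `(log² n + ℓ)² ≤ δ n`;
(3) `∑_a |P(A_{n+1} = a) - P(A_n = a)| ≤ K log² n / √n`;
(4) `|∑_a N_B(a) e^(i t a)| ≤ K e^(-δ n t²) p_{2n}` for `|t| ≤ π`;
(5) `|∑_{a ≡ r mod q} N_B(a) - q⁻¹ ∑_a N_B(a)| ≤ K e^(-δ n / q²) p_{2n}`;
(6) `∑_a |∑_j (-1)^j C(k, j) N_B(a + j)| ≤ K_k p_{2n} n^(-k/2)` for every `k`. -/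
theorem result : ∃ μ K δ : ℝ, 0 < μ ∧ 0 < K ∧ 0 < δ ∧
    Tendsto (fun n : ℕ => (c n : ℝ) ^ ((1:ℝ) / (n : ℝ))) atTop (𝓝 μ) ∧
    (∀ n : ℕ, 2 ≤ n → 0 < p n ∧
      (∀ (B : Set (ℕ × ℕ)) (a a' : ℤ), (a' = a + 1 ∨ a' = a - 1) →
        Real.exp (-δ * n) * p n ≤ N n B {a} →
        |N n B {a'} / N n B {a} - 1| ≤ K * √((1 + Real.log (p n / N n B {a})) / n)) ∧
      (∀ a : ℤ, 0 < N n Set.univ {a} →
        (Real.log n ^ 2 + Real.log (p n / N n Set.univ {a})) ^ 2 ≤ δ * n →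
        |N (n + 1) Set.univ {a} / (μ ^ 2 * N n Set.univ {a}) - 1| ≤
          K * ((Real.log n ^ 2 + Real.log (p n / N n Set.univ {a})) / √n)) ∧
      (∀ S : Finset ℤ, ∑ a ∈ S, |N (n + 1) Set.univ {a} / p (n + 1) - N n Set.univ {a} / p n| ≤
        K * (Real.log n ^ 2 / √n)) ∧
      (∀ (B : Set (ℕ × ℕ)) (t : ℝ), |t| ≤ Real.pi →
        ‖∑ᶠ f ∈ {f : ZMod (2 * n) → ℤ × ℤ | IsLoop (2 * n) f ∧
            (width (2 * n) f, height (2 * n) f) ∈ B},
          Complex.exp (Complex.I * t * (area (2 * n) f : ℂ))‖ / (4 * (n : ℝ)) ≤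
          K * Real.exp (-δ * n * t ^ 2) * p n) ∧
      (∀ (B : Set (ℕ × ℕ)) (q : ℕ) (r : ℤ), 1 ≤ q →
        |N n B {a | (q : ℤ) ∣ a - r} - N n B Set.univ / q| ≤ K * Real.exp (-δ * n / q ^ 2) * p n)) ∧
    ∀ k : ℕ, ∃ Kk : ℝ, ∀ n : ℕ, 2 ≤ n → ∀ (B : Set (ℕ × ℕ)) (S : Finset ℤ),
      ∑ a ∈ S, |∑ j ∈ Finset.range (k + 1), (-1) ^ j * (k.choose j : ℝ) * N n B {a + (j : ℤ)}| ≤
        Kk * p n * (n : ℝ) ^ (-(k : ℝ) / 2) :=
  core Pool.Agent.Q91.PT.c_fn1 Pool.Agent.Q91.PT.c_fn2 Pool.Agent.Q91.PT.c_fn3 Pool.Agent.Q91.PT.c_fn6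

end Pool.Agent.Results.MP_f6626d_co.LocalAreaLaw
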